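import Mathlib

set_option autoImplicit false

/-! Strong Maltsev conditions and the local-global property. -/

namespace Pool.Agent.X227.LG

universe u

/-- Terms built from operation symbols `f : Fin m` of arity `ar f` and variables `x_i`, `i < n`. -/
inductive Tm {m : ℕ} (ar : Fin m → ℕ) (n : ℕ) : Type
  | var (i : Fin n) : Tm ar n
  | app (f : Fin m) (args : Fin (ar f) → Tm ar n) : Tm ar n

/-- The value of a term, for the interpretation `I` of the symbols and the values `x` of the
variables. -/
def Tm.eval {m : ℕ} {ar : Fin m → ℕ} {n : ℕ} {A : Type u} (I : ∀ f, (Fin (ar f) → A) → A)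
    (x : Fin n → A) : Tm ar n → A
  | .var i => x i
  | .app f args => I f fun j => (args j).eval I x

/-- A strong Maltsev condition: finitely many identities between terms built from finitely many
operation symbols (of positive arity) and finitely many variables. -/
structure Cond where
  /-- the number of operation symbols -/
  m : ℕ
  /-- the arities -/
  ar : Fin m → ℕ
  /-- the number of variables -/
  n : ℕ
  /-- the identities -/
  ids : List (Tm ar n × Tm ar n)
  ar_pos : ∀ f, 0 < ar f

/-- A side of a linear identity: a variable, or a symbol applied to variables. -/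
def Tm.IsFlat {m : ℕ} {ar : Fin m → ℕ} {n : ℕ} : Tm ar n → Prop
  | .var _ => True
  | .app _ args => ∀ j, ∃ i, args j = .var i

/-- The condition is linear. -/
def Cond.IsLinear (S : Cond) : Prop := ∀ e ∈ S.ids, e.1.IsFlat ∧ e.2.IsFlat

/-- An algebra with universe `A`: a set of basic operations (of each finite arity). -/
structure Alg (A : Type u) where
  ops : (l : ℕ) → Set ((Fin l → A) → A)

/-- The `l`-ary term operations of an algebra. -/
inductive Alg.Clo {A : Type u} (𝔸 : Alg A) (l : ℕ) : ((Fin l → A) → A) → Prop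
  | proj (i : Fin l) : Alg.Clo 𝔸 l fun x => x i
  | comp (r : ℕ) (f : (Fin r → A) → A) (hf : f ∈ 𝔸.ops r) (g : Fin r → (Fin l → A) → A)
      (hg : ∀ j, Alg.Clo 𝔸 l (g j)) : Alg.Clo 𝔸 l fun x => f fun j => g j x

/-- The algebra satisfies the condition `S` on the set `F` of tuples: some interpretation of the
symbols of `S` by term operations makes all identities true for all tuples in `F`. -/
def Alg.SatOn {A : Type u} (𝔸 : Alg A) (S : Cond) (F : Set (Fin S.n → A)) : Prop :=
  ∃ I : ∀ f : Fin S.m, (Fin (S.ar f) → A) → A, (∀ f, 𝔸.Clo (S.ar f) (I f)) ∧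
    ∀ x ∈ F, ∀ e ∈ S.ids, e.1.eval I x = e.2.eval I x

/-- The algebra satisfies the condition `S`. -/
def Alg.Models {A : Type u} (𝔸 : Alg A) (S : Cond) : Prop := 𝔸.SatOn S Set.univ

/-- The `k`-local-global property. -/
def Cond.KLG (S : Cond) (k : ℕ) : Prop :=
  ∀ (A : Type u) [Nonempty A] (𝔸 : Alg A), (k : Cardinal.{u}) ≤ Cardinal.mk (Fin S.n → A) →
    (∀ F : Finset (Fin S.n → A), F.card = k → 𝔸.SatOn S F) →
      ∀ F : Finset (Fin S.n → A), 𝔸.SatOn S F

/-- The local-global property. -/
def Cond.LG (S : Cond) : Prop := ∃ k : ℕ, 1 ≤ k ∧ Cond.KLG.{u} S k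

/-- Equivalence of conditions: they are satisfied by the same algebras. -/
def Cond.Equivalent (S T : Cond) : Prop :=
  ∀ (A : Type u) [Nonempty A] (𝔸 : Alg A), 𝔸.Models S ↔ 𝔸.Models T

variable {A : Type u} {𝔸 : Alg A}

theorem Alg.Clo.subst {l r : ℕ} {f : (Fin r → A) → A} (hf : 𝔸.Clo r f)
    {g : Fin r → (Fin l → A) → A} (hg : ∀ j, 𝔸.Clo l (g j)) : 𝔸.Clo l fun x => f fun j => g j x := by
  induction hf with
  | proj i => exact hg i
  | comp s f' hf' g' _ ih => exact Alg.Clo.comp s f' hf' _ ih

theorem Alg.SatOn.mono {S : Cond} {F G : Set (Fin S.n → A)} (h : F ⊆ G) (hG : 𝔸.SatOn S G) :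
    𝔸.SatOn S F := by
  obtain ⟨I, hI, h'⟩ := hG
  exact ⟨I, hI, fun x hx => h' x (h hx)⟩

end Pool.Agent.X227.LG
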