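import Pool.Agent.X227.LG.Three

set_option autoImplicit false

/-! `sigma3` does not have the local-global property. -/

namespace Pool.Agent.X227.LG

universe u

set_option linter.unusedSectionVars false

section

variable {A : Type u} [DecidableEq A] [Encodable A]

/-- Canonical forms of the values of the operation `p` attached to the set `F` of pairs. -/
def kp (F : Finset (A × A)) (r s t : A) : Bool × A × A × A :=
  if s = t ∧ (r, s) ∈ F then (true, r, r, r) else (true, r, s, t)

/-- Canonical forms of the values of the operation `q` attached to the set `F` of pairs. -/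
def kq (F : Finset (A × A)) (r s t : A) : Bool × A × A × A :=
  if r = s ∧ (r, t) ∈ F then (if (t, t) ∈ F then (true, t, t, t) else (false, t, t, t))
  else if s = t ∧ (r, s) ∈ F then (true, r, r, s) else (false, r, s, t)

theorem kp_fst {F : Finset (A × A)} {r s t : A} : (kp F r s t).2.1 = r := by
  unfold kp
  split_ifs <;> rfl

theorem kp_sym {F : Finset (A × A)} {r s t : A} : (kp F r s t).1 = true := by
  unfold kp
  split_ifs <;> rfl

theorem kq_thd {F : Finset (A × A)} {r s t : A} : (kq F r s t).2.2.2 = t := by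
  unfold kq
  split_ifs with h1 h2 h3
  · rfl
  · rfl
  · exact h3.1
  · rfl

theorem kq_mixed {F : Finset (A × A)} {r s t : A} (h : (kq F r s t).1 = true) :
    ∃ e ∈ F, kq F r s t = (true, e.1, e.1, e.2) := by
  unfold kq at h ⊢
  split_ifs at h ⊢ with h1 h2 h3
  · exact ⟨(t, t), h2, rfl⟩
  · exact ⟨(r, s), h3.2, rfl⟩

/-- The operation `p` attached to `F`. -/
def opp (c : ℕ → A) (F : Finset (A × A)) (r s t : A) : A := c (2 * Encodable.encode (F, kp F r s t))

/-- The operation `q` attached to `F`. -/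
def opq (c : ℕ → A) (F : Finset (A × A)) (r s t : A) : A := c (2 * Encodable.encode (F, kq F r s t))

theorem enc_inj {c : ℕ → A} (hc : Function.Injective c) {F G : Finset (A × A)}
    {a b : Bool × A × A × A}
    (h : c (2 * Encodable.encode (F, a)) = c (2 * Encodable.encode (G, b))) : F = G ∧ a = b :=
  Prod.mk.inj (Encodable.encode_injective (Nat.eq_of_mul_eq_mul_left Nat.two_pos (hc h)))

theorem id0 (c : ℕ → A) {F : Finset (A × A)} {x z : A} (h : (x, z) ∈ F) :
    opp c F x z z = opp c F x x x := by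
  unfold opp kp
  simp [h]

theorem id1 (c : ℕ → A) {F : Finset (A × A)} {x z : A} (h : (x, z) ∈ F) :
    opp c F x x z = opq c F x z z := by
  unfold opp opq kp kq
  by_cases hxz : x = z
  · subst hxz
    simp [h]
  · simp [h, hxz]

theorem id2 (c : ℕ → A) {F : Finset (A × A)} {x z : A} (h : (x, z) ∈ F) :
    opq c F x x z = opq c F z z z := by
  unfold opq kq
  by_cases hz : (z, z) ∈ F
  · simp [h, hz]
  · simp [h, hz]

theorem opp_inj {c : ℕ → A} (hc : Function.Injective c) {F G : Finset (A × A)} {r s t r' s' t' : A}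
    (h : opp c F r s t = opp c G r' s' t') : r = r' := by
  obtain ⟨rfl, h2⟩ := enc_inj hc h
  rw [← kp_fst (F := F) (r := r) (s := s) (t := t), h2, kp_fst]

theorem opq_inj {c : ℕ → A} (hc : Function.Injective c) {F G : Finset (A × A)} {r s t r' s' t' : A}
    (h : opq c F r s t = opq c G r' s' t') : t = t' := by
  obtain ⟨rfl, h2⟩ := enc_inj hc h
  rw [← kq_thd (F := F) (r := r) (s := s) (t := t), h2, kq_thd]

/-- The common values of `p` and `q` attached to `F`. -/
theorem mixed {c : ℕ → A} (hc : Function.Injective c) {F G : Finset (A × A)}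
    {r s t r' s' t' : A} (h : opp c F r s t = opq c G r' s' t') :
    F = G ∧
      opp c F r s t ∈ F.image fun e => c (2 * Encodable.encode (F, (true, e.1, e.1, e.2))) := by
  obtain ⟨rfl, h2⟩ := enc_inj hc h
  have h3 : (kq F r' s' t').1 = true := by rw [← h2, kp_sym]
  obtain ⟨e, he, h4⟩ := kq_mixed h3
  refine ⟨rfl, Finset.mem_image.2 ⟨e, he, ?_⟩⟩
  rw [h]
  unfold opq
  rw [h4]

/-- The algebra with the operations `opp F`, `opq F`, for the sets `F` of `k` pairs. -/
def bad (c : ℕ → A) (k : ℕ) : Alg A where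
  ops := fun l => match l with
    | 3 => {f | ∃ F : Finset (A × A), F.card = k ∧
        ((f = fun x => opp c F (x 0) (x 1) (x 2)) ∨ f = fun x => opq c F (x 0) (x 1) (x 2))}
    | _ => ∅

theorem bad_ops {c : ℕ → A} {k l : ℕ} {f : (Fin l → A) → A} (hf : f ∈ (bad c k).ops l) : l = 3 := by
  rcases l with _ | _ | _ | _ | l
  · exact hf.elim
  · exact hf.elim
  · exact hf.elim
  · rfl
  · exact hf.elim

/-- Induction principle for the term operations of `bad c k`. -/
theorem bad_induction {c : ℕ → A} {k l : ℕ} {motive : ((Fin l → A) → A) → Prop}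
    (hproj : ∀ i, motive fun x => x i)
    (hp : ∀ F : Finset (A × A), F.card = k → ∀ g0 g1 g2, motive g0 → motive g1 → motive g2 →
      motive fun x => opp c F (g0 x) (g1 x) (g2 x))
    (hq : ∀ F : Finset (A × A), F.card = k → ∀ g0 g1 g2, motive g0 → motive g1 → motive g2 →
      motive fun x => opq c F (g0 x) (g1 x) (g2 x))
    {f : (Fin l → A) → A} (hf : (bad c k).Clo l f) : motive f := by
  induction hf with
  | proj i => exact hproj i
  | comp r f hf g _ ih =>
    obtain rfl := bad_ops hf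
    obtain ⟨F, hF, rfl | rfl⟩ := hf
    · exact hp F hF _ _ _ (ih 0) (ih 1) (ih 2)
    · exact hq F hF _ _ _ (ih 0) (ih 1) (ih 2)

theorem bad_cases {c : ℕ → A} {k l : ℕ} {f : (Fin l → A) → A} (hf : (bad c k).Clo l f) :
    (∃ i, f = fun x => x i) ∨ ∃ (F : Finset (A × A)) (g0 g1 g2 : (Fin l → A) → A),
      F.card = k ∧ (bad c k).Clo l g0 ∧ (bad c k).Clo l g2 ∧
      ((f = fun x => opp c F (g0 x) (g1 x) (g2 x)) ∨ f = fun x => opq c F (g0 x) (g1 x) (g2 x)) := by
  cases hf with
  | proj i => exact Or.inl ⟨i, rfl⟩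
  | comp r f hf g hg =>
    obtain rfl := bad_ops hf
    obtain ⟨F, hF, rfl | rfl⟩ := hf
    · exact Or.inr ⟨F, g 0, g 1, g 2, hF, hg 0, hg 2, Or.inl rfl⟩
    · exact Or.inr ⟨F, g 0, g 1, g 2, hF, hg 0, hg 2, Or.inr rfl⟩

/-- The three identities for all pairs of elements of `X`. -/
def Sol (X : Finset A) (P Q : (Fin 3 → A) → A) : Prop :=
  ∀ x ∈ X, ∀ z ∈ X, P ![x, z, z] = P ![x, x, x] ∧ P ![x, x, z] = Q ![x, z, z] ∧
    Q ![x, x, z] = Q ![z, z, z]

theorem no_solution {c : ℕ → A} (hc : Function.Injective c) {k : ℕ} (X : Finset A)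
    (hX : k < X.card) (hX2 : 2 ≤ X.card) (hgen : ∀ x ∈ X, ∀ n : ℕ, x ≠ c (2 * n))
    {P : (Fin 3 → A) → A} (hP : (bad c k).Clo 3 P) :
    (∀ a b : A, P ![a, a, a] = P ![b, b, b] → a = b) ∧
    ∀ Q, (bad c k).Clo 3 Q → ¬ Sol X P Q := by
  obtain ⟨a, ha, b, hb, hab⟩ := Finset.one_lt_card.1 (lt_of_lt_of_le one_lt_two hX2)
  have big : ∀ (F : Finset (A × A)) (g : A × A → A) (P : (Fin 3 → A) → A), F.card = k →
      (∀ a b : A, P ![a, a, a] = P ![b, b, b] → a = b) →
      (∀ x ∈ X, P ![x, x, x] ∈ F.image g) → False := by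
    intro F g P hF hd h
    have h1 : (X.image fun x => P ![x, x, x]).card = X.card :=
      Finset.card_image_of_injective _ fun x y hxy => hd x y hxy
    have h2 : (X.image fun x => P ![x, x, x]) ⊆ F.image g := by
      intro y hy
      obtain ⟨x, hx, rfl⟩ := Finset.mem_image.1 hy
      exact h x hx
    have h3 := (Finset.card_le_card h2).trans Finset.card_image_le
    omega
  refine bad_induction (motive := fun P => (∀ a b : A, P ![a, a, a] = P ![b, b, b] → a = b) ∧
    ∀ Q, (bad c k).Clo 3 Q → ¬ Sol X P Q) ?_ ?_ ?_ hP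
  · -- a variable
    refine fun i => ⟨fun a b h => by fin_cases i <;> exact h, fun Q hQ hS => ?_⟩
    rcases bad_cases hQ with ⟨j, rfl⟩ | ⟨F, g0, g1, g2, -, -, -, rfl | rfl⟩
    · obtain ⟨h1, h2, h3⟩ := hS a ha b hb
      have h1' : (![a, b, b] : Fin 3 → A) i = (![a, a, a] : Fin 3 → A) i := h1
      have h2' : (![a, a, b] : Fin 3 → A) i = (![a, b, b] : Fin 3 → A) j := h2
      have h3' : (![a, a, b] : Fin 3 → A) j = (![b, b, b] : Fin 3 → A) j := h3
      clear h1 h2 h3 hS hQ
      fin_cases i <;> fin_cases j <;>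
        first | exact hab h1' | exact hab h1'.symm | exact hab h2' | exact hab h2'.symm |
          exact hab h3' | exact hab h3'.symm
    · have h2 := (hS a ha a ha).2.1
      have e : (![a, a, a] : Fin 3 → A) i = a := by fin_cases i <;> rfl
      exact hgen a ha _ (e.symm.trans h2)
    · have h2 := (hS a ha a ha).2.1
      have e : (![a, a, a] : Fin 3 → A) i = a := by fin_cases i <;> rfl
      exact hgen a ha _ (e.symm.trans h2)
  · -- the operation `p`
    refine fun F hF g0 g1 g2 ih0 _ _ => ⟨fun a b h => ih0.1 a b (opp_inj hc h),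
      fun Q hQ hS => ?_⟩
    rcases bad_cases hQ with ⟨j, rfl⟩ | ⟨G, h0, h1, h2, hG, hh0, hh2, rfl | rfl⟩
    · have h2 := (hS a ha a ha).2.1
      have e : (![a, a, a] : Fin 3 → A) j = a := by fin_cases j <;> rfl
      exact hgen a ha _ (e.symm.trans h2.symm)
    · refine ih0.2 h0 hh0 fun x hx z hz => ?_
      obtain ⟨e1, e2, e3⟩ := hS x hx z hz
      exact ⟨opp_inj hc e1, opp_inj hc e2, opp_inj hc e3⟩
    · exact big F _ (fun x => opp c F (g0 x) (g1 x) (g2 x)) hF
        (fun a b h => ih0.1 a b (opp_inj hc h)) fun x hx => (mixed hc (hS x hx x hx).2.1).2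
  · -- the operation `q`
    refine fun F hF g0 g1 g2 _ _ ih2 => ⟨fun a b h => ih2.1 a b (opq_inj hc h),
      fun Q hQ hS => ?_⟩
    rcases bad_cases hQ with ⟨j, rfl⟩ | ⟨G, h0, h1, h2, hG, hh0, hh2, rfl | rfl⟩
    · have h2 := (hS a ha a ha).2.1
      have e : (![a, a, a] : Fin 3 → A) j = a := by fin_cases j <;> rfl
      exact hgen a ha _ (e.symm.trans h2.symm)
    · refine big G (fun e => c (2 * Encodable.encode (G, ((true, e.1, e.1, e.2) : Bool × A × A × A))))
        (fun x => opq c F (g0 x) (g1 x) (g2 x)) hG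
        (fun a b h => ih2.1 a b (opq_inj hc h)) fun x hx => ?_
      have e := (hS x hx x hx).2.1
      have := (mixed hc e.symm).2
      simp only at e this ⊢
      rw [e]
      exact this
    · refine ih2.2 h2 hh2 fun x hx z hz => ?_
      obtain ⟨e1, e2, e3⟩ := hS x hx z hz
      exact ⟨opq_inj hc e1, opq_inj hc e2, opq_inj hc e3⟩

/-- Locally the condition is satisfied. -/
theorem bad_local (c : ℕ → A) (k : ℕ) (F : Finset (Fin 2 → A)) (hF : F.card = k) :
    (bad c k).SatOn sigma3 (F : Set (Fin 2 → A)) := by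
  let G : Finset (A × A) := F.image fun x => (x 0, x 1)
  have hG : G.card = k := by
    rw [Finset.card_image_of_injective, hF]
    intro x y hxy
    obtain ⟨h0, h1⟩ := Prod.mk.inj hxy
    ext j
    fin_cases j
    exacts [h0, h1]
  have hp : (bad c k).Clo 3 fun x => opp c G (x 0) (x 1) (x 2) :=
    Alg.Clo.comp 3 (fun x => opp c G (x 0) (x 1) (x 2))
      (show (fun x : Fin 3 → A => opp c G (x 0) (x 1) (x 2)) ∈ (bad c k).ops 3 from
        ⟨G, hG, Or.inl rfl⟩) (fun j x => x j) fun j => Alg.Clo.proj j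
  have hq : (bad c k).Clo 3 fun x => opq c G (x 0) (x 1) (x 2) :=
    Alg.Clo.comp 3 (fun x => opq c G (x 0) (x 1) (x 2))
      (show (fun x : Fin 3 → A => opq c G (x 0) (x 1) (x 2)) ∈ (bad c k).ops 3 from
        ⟨G, hG, Or.inr rfl⟩) (fun j x => x j) fun j => Alg.Clo.proj j
  refine (satOn3 _ _).2 ⟨_, _, hp, hq, fun x hx => ?_⟩
  have hx' : (x 0, x 1) ∈ G := Finset.mem_image_of_mem _ hx
  exact ⟨id0 c hx', id1 c hx', id2 c hx'⟩

end

/-- `sigma3` does not have the local-global property. -/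
theorem sigma3_not_lg : ¬ Cond.LG.{u} sigma3 := by
  classical
  rintro ⟨k, hk, h⟩
  let c : ℕ → ULift.{u} ℕ := ULift.up
  have hc : Function.Injective c := ULift.up_injective
  have hne : Nonempty (ULift.{u} ℕ) := ⟨⟨0⟩⟩
  have : Encodable (ULift.{u} ℕ) := Encodable.ofEquiv ℕ Equiv.ulift
  have hcard : (k : Cardinal.{u}) ≤ Cardinal.mk (Fin sigma3.n → ULift.{u} ℕ) := by
    have : Infinite (Fin 2 → ULift.{u} ℕ) := inferInstance
    exact (Cardinal.natCast_lt_aleph0).le.trans (Cardinal.aleph0_le_mk (Fin 2 → ULift.{u} ℕ))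
  let X : Finset (ULift.{u} ℕ) := (Finset.range (k + 1)).image fun n => c (2 * n + 1)
  have hX : X.card = k + 1 := by
    rw [Finset.card_image_of_injective, Finset.card_range]
    intro m n hmn
    have := hc hmn
    omega
  have hgen : ∀ x ∈ X, ∀ n : ℕ, x ≠ c (2 * n) := by
    intro x hx n hn
    obtain ⟨m, -, rfl⟩ := Finset.mem_image.1 hx
    have := hc hn
    omega
  have h1 := h (ULift.{u} ℕ) (bad c k) hcard (fun F hF => bad_local c k F hF)
    ((X ×ˢ X).image fun e => ![e.1, e.2])
  obtain ⟨P, Q, hP, hQ, h2⟩ := (satOn3 _ _).1 h1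
  refine (no_solution hc X (by omega) (by omega) hgen hP).2 Q hQ fun x hx z hz => ?_
  exact h2 ![x, z] (Finset.mem_coe.2 (Finset.mem_image.2 ⟨(x, z), Finset.mem_product.2 ⟨hx, hz⟩, rfl⟩))

end Pool.Agent.X227.LG
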