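import Pool.Agent.X227.LG.Three

set_option autoImplicit false

/-! `sigmaT` has the local-global property. -/

namespace Pool.Agent.X227.LG

universe u

variable {A : Type u}

/-- A superset of given size. -/
theorem exists_superset {α : Type u} (k : ℕ) (hk : (k : Cardinal.{u}) ≤ Cardinal.mk α)
    (s : Finset α) (hs : s.card ≤ k) : ∃ t : Finset α, s ⊆ t ∧ t.card = k := by
  classical
  rcases finite_or_infinite α with h | h
  · have := Fintype.ofFinite α
    rw [Cardinal.mk_fintype, Nat.cast_le] at hk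
    obtain ⟨t, h1, h2⟩ := Finset.exists_superset_card_eq hs hk
    exact ⟨t, h1, h2⟩
  · obtain ⟨t, h1, h2⟩ := Infinite.exists_superset_card_eq s k hs
    exact ⟨t, h1, h2⟩

/-- Composition of two 9-ary operations. -/
def star (t' t : (Fin 9 → A) → A) (K L : Fin 3 → Fin 9 → Fin 3) : (Fin 9 → A) → A :=
  fun x => t' fun i => t fun a => x (idx (K (row i) a) (L (col i) a))

theorem star_row (t' t : (Fin 9 → A) → A) (K0 K1 K2 : Fin 9 → Fin 3) (L : Fin 3 → Fin 9 → Fin 3)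
    (v : Fin 3 → A) : star t' t ![K0, K1, K2] L (v ∘ row) =
      t' (![t (v ∘ K0), t (v ∘ K1), t (v ∘ K2)] ∘ row) := by
  unfold star
  congr 1
  ext i
  simp only [Function.comp_apply, row_idx]
  generalize row i = j
  fin_cases j <;> rfl

theorem star_col (t' t : (Fin 9 → A) → A) (K : Fin 3 → Fin 9 → Fin 3) (L0 L1 L2 : Fin 9 → Fin 3)
    (v : Fin 3 → A) : star t' t K ![L0, L1, L2] (v ∘ col) =
      t' (![t (v ∘ L0), t (v ∘ L1), t (v ∘ L2)] ∘ col) := by
  unfold star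
  congr 1
  ext i
  simp only [Function.comp_apply, col_idx]
  generalize col i = j
  fin_cases j <;> rfl

theorem star_const (t' t : (Fin 9 → A) → A) (K L : Fin 3 → Fin 9 → Fin 3) (a : A) :
    star t' t K L (fun _ => a) = t' fun _ => t fun _ => a := rfl

theorem star_clo {𝔸 : Alg A} {t' t : (Fin 9 → A) → A} (h' : 𝔸.Clo 9 t') (h : 𝔸.Clo 9 t)
    (K L : Fin 3 → Fin 9 → Fin 3) : 𝔸.Clo 9 (star t' t K L) :=
  h'.subst fun i => h.subst fun a => Alg.Clo.proj (idx (K (row i) a) (L (col i) a))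

/-- The three identities hold on the three given sets. -/
def Good (t : (Fin 9 → A) → A) (F0 F1 F2 : Set (A × A)) : Prop :=
  (∀ x z, (x, z) ∈ F0 → t (![x, z, z] ∘ row) = t fun _ => x) ∧
  (∀ x z, (x, z) ∈ F1 → t (![x, x, z] ∘ row) = t (![x, z, z] ∘ col)) ∧
  (∀ x z, (x, z) ∈ F2 → t (![x, x, z] ∘ col) = t fun _ => z)

theorem cst_row (a : A) : ![a, a, a] ∘ row = fun _ => a := by
  ext i
  simp only [Function.comp_apply]
  generalize row i = j
  fin_cases j <;> rfl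

theorem cst_col (a : A) : ![a, a, a] ∘ col = fun _ => a := by
  ext i
  simp only [Function.comp_apply]
  generalize col i = j
  fin_cases j <;> rfl

theorem comp_row (x y z : A) (a b c : Fin 3) :
    ![x, y, z] ∘ (![a, b, c] ∘ row) = ![![x, y, z] a, ![x, y, z] b, ![x, y, z] c] ∘ row := by
  rw [← Function.comp_assoc, comp3]

theorem comp_col (x y z : A) (a b c : Fin 3) :
    ![x, y, z] ∘ (![a, b, c] ∘ col) = ![![x, y, z] a, ![x, y, z] b, ![x, y, z] c] ∘ col := by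
  rw [← Function.comp_assoc, comp3]

theorem comp_cst (v : Fin 3 → A) (a : Fin 3) : (v ∘ fun _ : Fin 9 => a) = fun _ => v a := rfl

theorem v0 (x y z : A) : ![x, y, z] 0 = x := rfl
theorem v1 (x y z : A) : ![x, y, z] 1 = y := rfl
theorem v2 (x y z : A) : ![x, y, z] 2 = z := rfl

variable {𝔸 : Alg A}

/-- Adding a pair to the first set. -/
theorem stepA {t t' : (Fin 9 → A) → A} {F0 F1 F2 : Set (A × A)} (a c : A) (h : Good t F0 F1 F2)
    (h' : Good t' {(t fun _ => a, t (![a, c, c] ∘ row))}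
      {e | ∃ x z, (x, z) ∈ F1 ∧ e = (t fun _ => x, t (![x, x, z] ∘ row))}
      {e | ∃ x z, (x, z) ∈ F2 ∧ e = (t fun _ => x, t fun _ => z)}) :
    Good (star t' t ![fun _ => 0, ![0, 1, 1] ∘ row, row] ![fun _ => 0, ![0, 1, 1] ∘ col, col])
      (insert (a, c) F0) F1 F2 := by
  obtain ⟨h0, h1, h2⟩ := h
  obtain ⟨h0', h1', h2'⟩ := h'
  refine ⟨fun x z hxz => ?_, fun x z hxz => ?_, fun x z hxz => ?_⟩
  · rw [star_row, star_const]
    simp only [comp_row, comp_cst, v0, v1, v2]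
    rcases hxz with hxz | hxz
    · obtain ⟨rfl, rfl⟩ := Prod.mk.inj hxz
      exact h0' _ _ rfl
    · rw [h0 x z hxz, cst_row]
  · rw [star_row, star_col]
    simp only [comp_row, comp_col, comp_cst, v0, v1, v2, cst_row, cst_col]
    rw [← h1 x z hxz]
    exact h1' _ _ ⟨x, z, hxz, rfl⟩
  · rw [star_col, star_const]
    simp only [comp_col, comp_cst, v0, v1, v2, cst_col]
    rw [h2 x z hxz]
    exact h2' _ _ ⟨x, z, hxz, rfl⟩

/-- Adding a pair to the third set. -/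
theorem stepC {t t' : (Fin 9 → A) → A} {F0 F1 F2 : Set (A × A)} (a c : A) (h : Good t F0 F1 F2)
    (h' : Good t' {e | ∃ x z, (x, z) ∈ F0 ∧ e = (t fun _ => x, t fun _ => z)}
      {e | ∃ x z, (x, z) ∈ F1 ∧ e = (t (![x, x, z] ∘ row), t fun _ => z)}
      {(t (![a, a, c] ∘ col), t fun _ => c)}) :
    Good (star t' t ![row, ![1, 1, 2] ∘ row, fun _ => 2] ![col, ![1, 1, 2] ∘ col, fun _ => 2])
      F0 F1 (insert (a, c) F2) := by
  obtain ⟨h0, h1, h2⟩ := h
  obtain ⟨h0', h1', h2'⟩ := h'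
  refine ⟨fun x z hxz => ?_, fun x z hxz => ?_, fun x z hxz => ?_⟩
  · rw [star_row, star_const]
    simp only [comp_row, comp_cst, v0, v1, v2, cst_row]
    rw [h0 x z hxz]
    exact h0' _ _ ⟨x, z, hxz, rfl⟩
  · rw [star_row, star_col]
    simp only [comp_row, comp_col, comp_cst, v0, v1, v2, cst_row, cst_col]
    rw [← h1 x z hxz]
    exact h1' _ _ ⟨x, z, hxz, rfl⟩
  · rw [star_col, star_const]
    simp only [comp_col, comp_cst, v0, v1, v2]
    rcases hxz with hxz | hxz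
    · obtain ⟨rfl, rfl⟩ := Prod.mk.inj hxz
      exact h2' _ _ rfl
    · rw [h2 x z hxz, cst_col]

/-- Adding a pair to the second set. -/
theorem stepB {t t' : (Fin 9 → A) → A} {F0 F1 F2 : Set (A × A)} (a c : A) (h : Good t F0 F1 F2)
    (h' : Good t' {e | ∃ x z, (x, z) ∈ F0 ∧ e = (t fun _ => x, t fun _ => z)}
      {(t (![a, a, c] ∘ row), t (![a, c, c] ∘ col))}
      {e | ∃ x z, (x, z) ∈ F2 ∧ e = (t fun _ => x, t fun _ => z)}) :
    Good (star t' t ![row, ![1, 1, 2] ∘ row, ![1, 2, 2] ∘ col]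
      ![![0, 0, 1] ∘ row, ![0, 1, 1] ∘ col, col]) F0 (insert (a, c) F1) F2 := by
  obtain ⟨h0, h1, h2⟩ := h
  obtain ⟨h0', h1', h2'⟩ := h'
  refine ⟨fun x z hxz => ?_, fun x z hxz => ?_, fun x z hxz => ?_⟩
  · rw [star_row, star_const]
    simp only [comp_row, comp_col, comp_cst, v0, v1, v2, cst_row, cst_col]
    rw [h0 x z hxz]
    exact h0' _ _ ⟨x, z, hxz, rfl⟩
  · rw [star_row, star_col]
    simp only [comp_row, comp_col, comp_cst, v0, v1, v2, cst_row, cst_col]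
    rcases hxz with hxz | hxz
    · obtain ⟨rfl, rfl⟩ := Prod.mk.inj hxz
      exact h1' _ _ rfl
    · rw [h1 x z hxz, cst_row, cst_col]
  · rw [star_col, star_const]
    simp only [comp_row, comp_col, comp_cst, v0, v1, v2, cst_row, cst_col]
    rw [h2 x z hxz]
    exact h2' _ _ ⟨x, z, hxz, rfl⟩

theorem Good.mono {t : (Fin 9 → A) → A} {F0 F1 F2 G0 G1 G2 : Set (A × A)} (h : Good t G0 G1 G2)
    (h0 : F0 ⊆ G0) (h1 : F1 ⊆ G1) (h2 : F2 ⊆ G2) : Good t F0 F1 F2 :=
  ⟨fun x z hxz => h.1 x z (h0 hxz), fun x z hxz => h.2.1 x z (h1 hxz),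
    fun x z hxz => h.2.2 x z (h2 hxz)⟩

theorem good_all (H : ∀ e0 e1 e2 : A × A, ∃ t, 𝔸.Clo 9 t ∧ Good t {e0} {e1} {e2})
    (F0 F1 F2 : Set (A × A)) (hF0 : F0.Finite) (hF1 : F1.Finite) (hF2 : F2.Finite) :
    ∃ t, 𝔸.Clo 9 t ∧ Good t F0 F1 F2 := by
  have fin1 : ∀ (F : Set (A × A)) (g : A → A → A × A), F.Finite →
      {e | ∃ x z, (x, z) ∈ F ∧ e = g x z}.Finite := by
    intro F g hF
    refine (hF.image fun e => g e.1 e.2).subset ?_
    rintro e ⟨x, z, hxz, rfl⟩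
    exact ⟨(x, z), hxz, rfl⟩
  -- one pair in the first and the third set
  have hB : ∀ (e0 e2 : A × A) (F1 : Set (A × A)), F1.Finite →
      ∃ t, 𝔸.Clo 9 t ∧ Good t {e0} F1 {e2} := by
    intro e0 e2 F1 hF1
    induction F1, hF1 using Set.Finite.induction_on with
    | empty =>
      obtain ⟨t, ht, h⟩ := H e0 e0 e2
      exact ⟨t, ht, h.mono subset_rfl (Set.empty_subset _) subset_rfl⟩
    | @insert e F _ _ ih =>
      obtain ⟨t, ht, h⟩ := ih
      obtain ⟨t', ht', h'⟩ := H (t fun _ => e0.1, t fun _ => e0.2)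
        (t (![e.1, e.1, e.2] ∘ row), t (![e.1, e.2, e.2] ∘ col)) (t fun _ => e2.1, t fun _ => e2.2)
      refine ⟨_, star_clo ht' ht _ _, stepB e.1 e.2 h (h'.mono ?_ subset_rfl ?_)⟩
      · rintro _ ⟨x, z, hxz, rfl⟩
        obtain rfl : (x, z) = e0 := hxz
        rfl
      · rintro _ ⟨x, z, hxz, rfl⟩
        obtain rfl : (x, z) = e2 := hxz
        rfl
  -- one pair in the third set
  have hA : ∀ (e2 : A × A) (F1 F0 : Set (A × A)), F1.Finite → F0.Finite →
      ∃ t, 𝔸.Clo 9 t ∧ Good t F0 F1 {e2} := by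
    intro e2 F1 F0 hF1 hF0
    induction F0, hF0 using Set.Finite.induction_on with
    | empty =>
      obtain ⟨t, ht, h⟩ := hB e2 e2 F1 hF1
      exact ⟨t, ht, h.mono (Set.empty_subset _) subset_rfl subset_rfl⟩
    | @insert e F _ _ ih =>
      obtain ⟨t, ht, h⟩ := ih
      obtain ⟨t', ht', h'⟩ := hB (t fun _ => e.1, t (![e.1, e.2, e.2] ∘ row))
        (t fun _ => e2.1, t fun _ => e2.2) _
        (fin1 F1 (fun x z => (t fun _ => x, t (![x, x, z] ∘ row))) hF1)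
      refine ⟨_, star_clo ht' ht _ _, stepA e.1 e.2 h (h'.mono subset_rfl subset_rfl ?_)⟩
      rintro _ ⟨x, z, hxz, rfl⟩
      obtain rfl : (x, z) = e2 := hxz
      rfl
  induction F2, hF2 using Set.Finite.induction_on with
  | empty =>
    rcases isEmpty_or_nonempty (A × A) with he | ⟨⟨e⟩⟩
    · exact ⟨_, Alg.Clo.proj 0, fun x z => (he.false (x, z)).elim, fun x z => (he.false (x, z)).elim,
        fun x z => (he.false (x, z)).elim⟩
    · obtain ⟨t, ht, h⟩ := hA e F1 F0 hF1 hF0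
      exact ⟨t, ht, h.mono subset_rfl subset_rfl (Set.empty_subset _)⟩
  | @insert e F _ _ ih =>
    obtain ⟨t, ht, h⟩ := ih
    obtain ⟨t', ht', h'⟩ := hA (t (![e.1, e.1, e.2] ∘ col), t fun _ => e.2) _ _
      (fin1 F1 (fun x z => (t (![x, x, z] ∘ row), t fun _ => z)) hF1)
      (fin1 F0 (fun x z => (t fun _ => x, t fun _ => z)) hF0)
    exact ⟨_, star_clo ht' ht _ _, stepC e.1 e.2 h h'⟩

/-- `sigmaT` has the `3`-local-global property. -/
theorem sigmaT_klg : Cond.KLG.{u} sigmaT 3 := by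
  classical
  intro A _ 𝔸 hcard hloc F
  have H : ∀ e0 e1 e2 : A × A, ∃ t, 𝔸.Clo 9 t ∧ Good t {e0} {e1} {e2} := by
    intro e0 e1 e2
    obtain ⟨G, hG, hc⟩ := exists_superset (α := Fin 2 → A) 3 hcard
      {![e0.1, e0.2], ![e1.1, e1.2], ![e2.1, e2.2]} Finset.card_le_three
    obtain ⟨t, ht, h⟩ := (satOnT 𝔸 _).1 (hloc G hc)
    refine ⟨t, ht, fun x z hxz => ?_, fun x z hxz => ?_, fun x z hxz => ?_⟩
    · obtain rfl : (x, z) = e0 := hxz
      simpa using (h ![x, z] (Finset.mem_coe.2 (hG (by simp)))).1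
    · obtain rfl : (x, z) = e1 := hxz
      simpa using (h ![x, z] (Finset.mem_coe.2 (hG (by simp)))).2.1
    · obtain rfl : (x, z) = e2 := hxz
      simpa using (h ![x, z] (Finset.mem_coe.2 (hG (by simp)))).2.2
  have hfin : {e : A × A | ![e.1, e.2] ∈ F}.Finite := by
    refine Set.Finite.subset (Set.Finite.image (fun x : Fin 2 → A => (x 0, x 1)) F.finite_toSet) ?_
    intro e he
    exact ⟨_, he, rfl⟩
  obtain ⟨t, ht, h⟩ := good_all H _ _ _ hfin hfin hfin
  refine (satOnT 𝔸 _).2 ⟨t, ht, fun x hx => ?_⟩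
  have hx' : ((x 0, x 1) : A × A) ∈ {e : A × A | ![e.1, e.2] ∈ F} := by
    change ![x 0, x 1] ∈ F
    rw [show ![x 0, x 1] = x by ext j; fin_cases j <;> rfl]
    exact hx
  exact ⟨h.1 _ _ hx', h.2.1 _ _ hx', h.2.2 _ _ hx'⟩

/-- `sigmaT` has the local-global property. -/
theorem sigmaT_lg : Cond.LG.{u} sigmaT := ⟨3, by norm_num, sigmaT_klg⟩

end Pool.Agent.X227.LG
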