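import Pool.Agent.X227.LG.LGT
import Pool.Agent.X227.LG.Fail

set_option autoImplicit false

/-! `sigma3` has the local-global property for idempotent algebras; `sigma3` and `sigmaT` are
equivalent over finite algebras. -/

namespace Pool.Agent.X227.LG

universe u

variable {A : Type u} {𝔸 : Alg A}

theorem comp_idx (f : (Fin 3 → A) → A) (g : (Fin 3 → A) → A) (v : Fin 3 → A) :
    (f fun a => g fun b => (v ∘ row) (idx a b)) = f fun a => g fun _ => v a := by
  simp only [Function.comp_apply, row_idx]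

theorem comp_idx' (f : (Fin 3 → A) → A) (g : (Fin 3 → A) → A) (v : Fin 3 → A) :
    (f fun a => g fun b => (v ∘ col) (idx a b)) = f fun _ => g v := by
  simp only [Function.comp_apply, col_idx]

theorem cst3 (x : A) : (fun _ : Fin 3 => x) = ![x, x, x] := by
  ext j; fin_cases j <;> rfl

/-- In idempotent algebras the first condition gives the second one. -/
theorem sat3_satT (h𝔸 : 𝔸.Idempotent) {F : Set (Fin 2 → A)} (h : 𝔸.SatOn sigma3 F) :
    𝔸.SatOn sigmaT F := by
  obtain ⟨p, q, hp, hq, h⟩ := (satOn3 𝔸 F).1 h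
  refine (satOnT 𝔸 F).2 ⟨fun x => p fun a => q fun b => x (idx a b),
    hp.subst fun a => hq.subst fun b => Alg.Clo.proj (idx a b), fun x hx => ?_⟩
  obtain ⟨h0, h1, h2⟩ := h x hx
  have ep : ∀ a, p (fun _ => a) = a := hp.idem h𝔸
  have eq : ∀ a, q (fun _ => a) = a := hq.idem h𝔸
  simp only [comp_idx, comp_idx', ep, eq]
  rw [← cst3, ep] at h0
  rw [← cst3 (x 1), eq] at h2
  exact ⟨h0, h1, h2⟩

/-- The second condition gives the first one. -/
theorem satT_sat3 {F : Set (Fin 2 → A)} (h : 𝔸.SatOn sigmaT F) : 𝔸.SatOn sigma3 F := by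
  obtain ⟨t, ht, h⟩ := (satOnT 𝔸 F).1 h
  refine (satOn3 𝔸 F).2 ⟨fun v => t (v ∘ row), fun v => t (v ∘ col),
    ht.subst fun a => Alg.Clo.proj (row a), ht.subst fun a => Alg.Clo.proj (col a), fun x hx => ?_⟩
  obtain ⟨h0, h1, h2⟩ := h x hx
  simp only [cst_row, cst_col]
  exact ⟨h0, h1, h2⟩

/-- `sigma3` has the local-global property for the class of idempotent algebras. -/
theorem sigma3_lgIdem : Cond.LGIdem.{u} sigma3 := by
  refine ⟨3, by norm_num, fun A _ 𝔸 h𝔸 hcard hloc F => ?_⟩
  exact satT_sat3 (sigmaT_klg A 𝔸 hcard (fun G hG => sat3_satT h𝔸 (hloc G hG)) F)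

/-- A map of a finite set has an idempotent iterate. -/
theorem exists_idem_iterate [Finite A] (f : A → A) :
    ∃ m : ℕ, ∀ x, f^[m + 1] (f^[m + 1] x) = f^[m + 1] x := by
  have : Finite (A → A) := inferInstance
  obtain ⟨i, j, hij, h⟩ := Finite.exists_ne_map_eq_of_infinite fun n : ℕ => f^[n]
  wlog hlt : i < j generalizing i j
  · exact this j i hij.symm h.symm (by omega)
  obtain ⟨p, rfl⟩ : ∃ p, j = i + (p + 1) := ⟨j - i - 1, by omega⟩
  have h1 : ∀ n, i ≤ n → f^[n + (p + 1)] = f^[n] := by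
    intro n hn
    obtain ⟨r, rfl⟩ := Nat.exists_eq_add_of_le hn
    have e1 : i + r + (p + 1) = r + (i + (p + 1)) := by omega
    have e2 : i + r = r + i := by omega
    rw [e1, e2, Function.iterate_add, Function.iterate_add f r i]
    rw [h]
  have h2 : ∀ k n, i ≤ n → f^[n + k * (p + 1)] = f^[n] := by
    intro k
    induction k with
    | zero => intro n _; simp
    | succ k ih =>
      intro n hn
      rw [show n + (k + 1) * (p + 1) = (n + k * (p + 1)) + (p + 1) by ring, h1 _ (by omega),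
        ih n hn]
  refine ⟨(i + 1) * (p + 1) - 1, fun x => ?_⟩
  have e3 : (i + 1) * (p + 1) - 1 + 1 = (i + 1) * (p + 1) := by
    have : 0 < (i + 1) * (p + 1) := by positivity
    omega
  rw [e3, ← Function.iterate_add_apply, h2 (i + 1) _ (by nlinarith)]

/-- `f` is a unary term operation. -/
def UT (𝔸 : Alg A) (f : A → A) : Prop :=
  ∀ (l : ℕ) (g : (Fin l → A) → A), 𝔸.Clo l g → 𝔸.Clo l fun x => f (g x)

theorem UT.iterate {f : A → A} (hf : UT 𝔸 f) (n : ℕ) : UT 𝔸 f^[n] := by
  induction n with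
  | zero => exact fun l g hg => hg
  | succ n ih =>
    intro l g hg
    simp only [Function.iterate_succ_apply]
    exact ih l _ (hf l g hg)

/-- The two conditions are equivalent over finite algebras. -/
theorem finEquivalent : Cond.FinEquivalent.{u} sigmaT sigma3 := by
  intro A _ _ 𝔸
  refine ⟨satT_sat3, fun h => ?_⟩
  obtain ⟨p, q, hp, hq, h⟩ := (satOn3 𝔸 Set.univ).1 h
  have h0 : ∀ x z, p ![x, z, z] = p ![x, x, x] := fun x z => (h ![x, z] trivial).1
  have h1 : ∀ x z, p ![x, x, z] = q ![x, z, z] := fun x z => (h ![x, z] trivial).2.1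
  have h2 : ∀ x z, q ![x, x, z] = q ![z, z, z] := fun x z => (h ![x, z] trivial).2.2
  let w : A → A := fun x => p ![x, x, x]
  have hwq : ∀ x, q ![x, x, x] = w x := fun x => (h1 x x).symm
  have hw : UT 𝔸 w := by
    intro l g hg
    have := hp.subst (l := l) (g := fun _ => g) fun _ => hg
    simp only [cst3] at this
    exact this
  obtain ⟨m, hm⟩ := exists_idem_iterate w
  let e : A → A := w^[m + 1]
  let s : A → A := w^[m]
  have he : UT 𝔸 e := hw.iterate _
  have hs : UT 𝔸 s := hw.iterate _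
  have hee : ∀ x, e (e x) = e x := hm
  have hsw : ∀ x, s (w x) = e x := fun x => (Function.iterate_succ_apply w m x).symm
  let P : (Fin 3 → A) → A := fun v => e (s (p fun a => e (v a)))
  let Q : (Fin 3 → A) → A := fun v => e (s (q fun a => e (v a)))
  have hP : 𝔸.Clo 3 P := he 3 _ (hs 3 _ (hp.subst fun a => he 3 _ (Alg.Clo.proj a)))
  have hQ : 𝔸.Clo 3 Q := he 3 _ (hs 3 _ (hq.subst fun a => he 3 _ (Alg.Clo.proj a)))
  have v3 : ∀ x y z : A, (fun a => e ((![x, y, z] : Fin 3 → A) a)) = ![e x, e y, e z] := by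
    intro x y z
    ext j; fin_cases j <;> rfl
  have eP : ∀ x, P (fun _ => x) = e x := by
    intro x
    change e (s (p fun _ => e x)) = e x
    rw [cst3]
    change e (s (w (e x))) = e x
    rw [hsw, hee, hee]
  have eQ : ∀ x, Q (fun _ => x) = e x := by
    intro x
    change e (s (q fun _ => e x)) = e x
    rw [cst3, hwq, hsw, hee, hee]
  have Pe : ∀ v, (P fun a => e (v a)) = P v := by
    intro v
    simp only [P, hee]
  have eQv : ∀ v, e (Q v) = Q v := fun v => hee _
  refine (satOnT 𝔸 Set.univ).2 ⟨fun x => P fun a => Q fun b => x (idx a b),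
    hP.subst fun a => hQ.subst fun b => Alg.Clo.proj (idx a b), fun x _ => ?_⟩
  simp only [comp_idx, comp_idx', eP, eQ, Pe, eQv, hee]
  refine ⟨?_, ?_, ?_⟩
  · simp only [P, v3, h0]
    change e (s (w (e (x 0)))) = _
    rw [hsw, hee, hee]
  · simp only [P, Q, v3, h1]
  · simp only [Q, v3]
    rw [h2, hwq, hsw, hee, hee]

end Pool.Agent.X227.LG
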