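import Pool.Agent.X227.LG.Defs

set_option autoImplicit false

/-! The height 1 condition `p(x,z,z) ≈ p(x,x,x)`, `p(x,x,z) ≈ q(x,z,z)`, `q(x,x,z) ≈ q(z,z,z)`
and its version with a single 9-ary symbol. -/

namespace Pool.Agent.X227.LG

open Tm

universe u

/-- A minor of a single symbol: a symbol applied to variables. -/
def Tm.IsMinor {m : ℕ} {ar : Fin m → ℕ} {n : ℕ} (t : Tm ar n) : Prop :=
  ∃ (f : Fin m) (σ : Fin (ar f) → Fin n), t = .app f fun j => .var (σ j)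

/-- Height 1: both sides of every identity are minors of single symbols. -/
def Cond.HeightOne (S : Cond) : Prop := ∀ e ∈ S.ids, e.1.IsMinor ∧ e.2.IsMinor

/-- The algebra is idempotent: all its basic operations are. -/
def Alg.Idempotent {A : Type u} (𝔸 : Alg A) : Prop :=
  ∀ (l : ℕ), ∀ f ∈ 𝔸.ops l, ∀ a : A, f (fun _ => a) = a

/-- The `k`-local-global property for the class of idempotent algebras. -/
def Cond.KLGIdem (S : Cond) (k : ℕ) : Prop :=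
  ∀ (A : Type u) [Nonempty A] (𝔸 : Alg A), 𝔸.Idempotent →
    (k : Cardinal.{u}) ≤ Cardinal.mk (Fin S.n → A) →
    (∀ F : Finset (Fin S.n → A), F.card = k → 𝔸.SatOn S F) →
      ∀ F : Finset (Fin S.n → A), 𝔸.SatOn S F

/-- The local-global property for the class of idempotent algebras. -/
def Cond.LGIdem (S : Cond) : Prop := ∃ k : ℕ, 1 ≤ k ∧ Cond.KLGIdem.{u} S k

/-- Equivalence over finite algebras. -/
def Cond.FinEquivalent (S T : Cond) : Prop :=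
  ∀ (A : Type u) [Nonempty A] [Finite A] (𝔸 : Alg A), 𝔸.Models S ↔ 𝔸.Models T

theorem Alg.Clo.idem {A : Type u} {𝔸 : Alg A} (h : 𝔸.Idempotent) {l : ℕ} {f : (Fin l → A) → A}
    (hf : 𝔸.Clo l f) (a : A) : f (fun _ => a) = a := by
  induction hf with
  | proj i => rfl
  | comp r f hf g _ ih =>
    simp only [ih]
    exact h r f hf a

/-- A minor of the symbol `f`. -/
abbrev mn {m : ℕ} {ar : Fin m → ℕ} {n : ℕ} (f : Fin m) (σ : Fin (ar f) → Fin n) : Tm ar n :=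
  .app f fun j => .var (σ j)

/-- The identities `p(x,z,z) ≈ p(x,x,x)`, `p(x,x,z) ≈ q(x,z,z)`, `q(x,x,z) ≈ q(z,z,z)`. -/
def ids3 : List (Tm (m := 2) (fun _ => 3) 2 × Tm (m := 2) (fun _ => 3) 2) :=
  [(mn 0 ![0, 1, 1], mn 0 ![0, 0, 0]), (mn 0 ![0, 0, 1], mn 1 ![0, 1, 1]),
    (mn 1 ![0, 0, 1], mn 1 ![1, 1, 1])]

/-- The condition with the ternary symbols `p, q` and the identities `p(x,z,z) ≈ p(x,x,x)`,
`p(x,x,z) ≈ q(x,z,z)`, `q(x,x,z) ≈ q(z,z,z)`. -/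
def sigma3 : Cond where
  m := 2
  ar := fun _ => 3
  n := 2
  ids := ids3
  ar_pos := fun _ => Nat.succ_pos 2

/-- The row of an index in a `3 × 3` matrix. -/
def row (i : Fin 9) : Fin 3 := ⟨i / 3, by omega⟩

/-- The column of an index in a `3 × 3` matrix. -/
def col (i : Fin 9) : Fin 3 := ⟨i % 3, by omega⟩

/-- The index of a position in a `3 × 3` matrix. -/
def idx (a b : Fin 3) : Fin 9 := ⟨3 * a + b, by omega⟩

@[simp] theorem row_idx (a b : Fin 3) : row (idx a b) = a := by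
  ext; simp only [row, idx]; omega

@[simp] theorem col_idx (a b : Fin 3) : col (idx a b) = b := by
  ext; simp only [col, idx]; omega

/-- The identities `t(xxx|zzz|zzz) ≈ t(xxx|xxx|xxx)`, `t(xxx|xxx|zzz) ≈ t(xzz|xzz|xzz)`,
`t(xxz|xxz|xxz) ≈ t(zzz|zzz|zzz)`. -/
def idsT : List (Tm (m := 1) (fun _ => 9) 2 × Tm (m := 1) (fun _ => 9) 2) :=
  [(mn 0 (![0, 1, 1] ∘ row), mn 0 fun _ => 0), (mn 0 (![0, 0, 1] ∘ row), mn 0 (![0, 1, 1] ∘ col)),
    (mn 0 (![0, 0, 1] ∘ col), mn 0 fun _ => 1)]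

/-- The condition with one 9-ary symbol `t` and the identities `t(xxx|zzz|zzz) ≈ t(xxx|xxx|xxx)`,
`t(xxx|xxx|zzz) ≈ t(xzz|xzz|xzz)`, `t(xxz|xxz|xxz) ≈ t(zzz|zzz|zzz)`. -/
def sigmaT : Cond where
  m := 1
  ar := fun _ => 9
  n := 2
  ids := idsT
  ar_pos := fun _ => Nat.succ_pos 8

theorem ids3_heightOne : ∀ e ∈ ids3, e.1.IsMinor ∧ e.2.IsMinor := by
  intro e he
  simp only [ids3, List.mem_cons, List.not_mem_nil, or_false] at he
  rcases he with rfl | rfl | rfl <;> exact ⟨⟨_, _, rfl⟩, ⟨_, _, rfl⟩⟩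

theorem idsT_heightOne : ∀ e ∈ idsT, e.1.IsMinor ∧ e.2.IsMinor := by
  intro e he
  simp only [idsT, List.mem_cons, List.not_mem_nil, or_false] at he
  rcases he with rfl | rfl | rfl <;> exact ⟨⟨_, _, rfl⟩, ⟨_, _, rfl⟩⟩

variable {A : Type u}

theorem eval_mn {m : ℕ} {ar : Fin m → ℕ} {n : ℕ} (I : ∀ f, (Fin (ar f) → A) → A) (x : Fin n → A)
    (f : Fin m) (σ : Fin (ar f) → Fin n) : (mn f σ : Tm ar n).eval I x = I f (x ∘ σ) := rfl

theorem comp3 {n : ℕ} (x : Fin n → A) (a b c : Fin n) : x ∘ ![a, b, c] = ![x a, x b, x c] := by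
  ext j; fin_cases j <;> rfl

/-- Satisfaction of the first condition on a set. -/
theorem satOn3 (𝔸 : Alg A) (F : Set (Fin 2 → A)) :
    𝔸.SatOn sigma3 F ↔ ∃ p q, 𝔸.Clo 3 p ∧ 𝔸.Clo 3 q ∧ ∀ x ∈ F,
      p ![x 0, x 1, x 1] = p ![x 0, x 0, x 0] ∧ p ![x 0, x 0, x 1] = q ![x 0, x 1, x 1] ∧
      q ![x 0, x 0, x 1] = q ![x 1, x 1, x 1] := by
  have key : ∀ (I : Fin 2 → (Fin 3 → A) → A) (x : Fin 2 → A),
      (∀ e ∈ ids3, e.1.eval I x = e.2.eval I x) ↔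
        I 0 ![x 0, x 1, x 1] = I 0 ![x 0, x 0, x 0] ∧ I 0 ![x 0, x 0, x 1] = I 1 ![x 0, x 1, x 1] ∧
        I 1 ![x 0, x 0, x 1] = I 1 ![x 1, x 1, x 1] := by
    intro I x
    simp only [ids3, List.forall_mem_cons, List.not_mem_nil, false_imp_iff, implies_true, and_true,
      eval_mn, comp3]
  constructor
  · rintro ⟨I, hI, h⟩
    exact ⟨I (0 : Fin 2), I (1 : Fin 2), hI _, hI _, fun x hx => (key I x).1 (h x hx)⟩
  · rintro ⟨p, q, hp, hq, h⟩
    refine ⟨![p, q], ?_, fun x hx => (key ![p, q] x).2 (h x hx)⟩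
    change ∀ f : Fin 2, 𝔸.Clo 3 ((![p, q] : Fin 2 → (Fin 3 → A) → A) f)
    intro i
    fin_cases i
    exacts [hp, hq]

/-- Satisfaction of the second condition on a set. -/
theorem satOnT (𝔸 : Alg A) (F : Set (Fin 2 → A)) :
    𝔸.SatOn sigmaT F ↔ ∃ t, 𝔸.Clo 9 t ∧ ∀ x ∈ F,
      t (![x 0, x 1, x 1] ∘ row) = t (fun _ => x 0) ∧
      t (![x 0, x 0, x 1] ∘ row) = t (![x 0, x 1, x 1] ∘ col) ∧
      t (![x 0, x 0, x 1] ∘ col) = t (fun _ => x 1) := by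
  have key : ∀ (I : Fin 1 → (Fin 9 → A) → A) (x : Fin 2 → A),
      (∀ e ∈ idsT, e.1.eval I x = e.2.eval I x) ↔
        I 0 (![x 0, x 1, x 1] ∘ row) = I 0 (fun _ => x 0) ∧
        I 0 (![x 0, x 0, x 1] ∘ row) = I 0 (![x 0, x 1, x 1] ∘ col) ∧
        I 0 (![x 0, x 0, x 1] ∘ col) = I 0 (fun _ => x 1) := by
    intro I x
    simp only [idsT, List.forall_mem_cons, List.not_mem_nil, false_imp_iff, implies_true, and_true,
      eval_mn, ← Function.comp_assoc, comp3]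
    rfl
  constructor
  · rintro ⟨I, hI, h⟩
    exact ⟨I (0 : Fin 1), hI _, fun x hx => (key I x).1 (h x hx)⟩
  · rintro ⟨t, ht, h⟩
    exact ⟨fun _ => t, fun _ => ht, fun x hx => (key (fun _ => t) x).2 (h x hx)⟩

end Pool.Agent.X227.LG
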